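import Pool.Agent.H27.L1.H18.GZ.Targets3

/-!
# Board gz_modules, row TNL: lattice sums integrated over the domain
-/

set_option autoImplicit false

namespace Pool.Agent.H27.L1.H89.GZ

open MeasureTheory Pool.Agent.H27.L1.H34.GM Pool.Agent.H27.L1.H34.GZ

theorem aN_smul {m : ℕ} (hm : 1 ≤ m) (c : ℝ) (hc : 0 < c) (z : Mat m) :
    aN (c • z) = c * aN z := by
  have h0 : (m : ℝ) ≠ 0 := by
    have : (1 : ℝ) ≤ m := by exact_mod_cast hm
    linarith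
  unfold aN
  rw [Matrix.det_smul, Fintype.card_fin, abs_mul, abs_pow, abs_of_pos hc,
    Real.mul_rpow (by positivity) (abs_nonneg _), ← Real.rpow_natCast, ← Real.rpow_mul hc.le,
    mul_one_div_cancel h0, Real.rpow_one]

theorem aN_mul {m : ℕ} (a b : Mat m) : aN (a * b) = aN a * aN b := by
  unfold aN
  rw [Matrix.det_mul, abs_mul, Real.mul_rpow (abs_nonneg _) (abs_nonneg _)]

theorem aN_inv {m : ℕ} (z : Mat m) : aN z⁻¹ = (aN z)⁻¹ := by
  unfold aN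
  rw [Matrix.det_nonsing_inv, Ring.inverse_eq_inv', abs_inv, Real.inv_rpow (abs_nonneg _)]

theorem aN_ne {m : ℕ} {z : Mat m} (hz : z.det ≠ 0) : aN z ≠ 0 := by
  unfold aN
  exact (Real.rpow_pos_of_pos (abs_pos.2 hz) _).ne'

theorem det_ne {m : ℕ} (hm : 1 ≤ m) {z : Mat m} (hz : 1 ≤ aN z) : z.det ≠ 0 := by
  intro h
  have h0 : (1 : ℝ) / m ≠ 0 := by
    have : (1 : ℝ) ≤ m := by exact_mod_cast hm
    positivity
  unfold aN at hz
  rw [h, abs_zero, Real.zero_rpow h0] at hz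
  linarith

theorem inv_smul_mat {m : ℕ} (c : ℝ) (hc : 0 < c) (z : Mat m) :
    (c • z)⁻¹ = c⁻¹ • z⁻¹ := by
  by_cases h : z.det = 0
  · have h1 : (c • z).det = 0 := by rw [Matrix.det_smul, h, mul_zero]
    rw [Matrix.nonsing_inv_apply_not_isUnit _ (by rw [h1]; exact not_isUnit_zero),
      Matrix.nonsing_inv_apply_not_isUnit _ (by rw [h]; exact not_isUnit_zero), smul_zero]
  · have h1 : (c • z) * (c⁻¹ • z⁻¹) = 1 := by
      rw [Matrix.smul_mul, Matrix.mul_smul, smul_smul, mul_inv_cancel₀ hc.ne', one_smul,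
        Matrix.mul_nonsing_inv _ (isUnit_iff_ne_zero.2 h)]
    exact Matrix.inv_eq_right_inv h1

theorem kk_smul {m : ℕ} (hm : 1 ≤ m) (r c : ℝ) (hc : 0 < c) (h α g : Mat m) :
    kk r (c • h) α g = kk r h α g := by
  unfold kk
  rw [aN_smul hm c hc, inv_smul_mat c hc, Matrix.smul_mul, Matrix.smul_mul, smul_smul]
  congr 1
  field_simp

/-- every non singular matrix is a unit times a representative -/
theorem sum_reps {m : ℕ} {T : ℕ → Finset (ZM m)} (hT : RepsZ m T)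
    (hu : ∀ γ : ZM m, IsUnit γ ↔ γ.det.natAbs = 1) (h : ZM m → ENNReal) :
    (∑' α : ZM m, (if α.det = 0 then 0 else h α)) ≤
      ∑' n : ℕ, ∑ ρ ∈ T (n + 1), ∑' γ : {γ : ZM m // IsUnit γ}, h (γ.1 * ρ) := by
  classical
  have hP : ∀ i : (Σ n : ℕ, {ρ // ρ ∈ T (n + 1)} × {γ : ZM m // IsUnit γ}),
      (i.2.2.1 * i.2.1.1).det ≠ 0 := by
    intro i
    have h1 := hT.mem (i.1 + 1) (by omega) _ i.2.1.2
    have h2 := (hu i.2.2.1).1 i.2.2.2
    rw [Matrix.det_mul]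
    refine mul_ne_zero ?_ ?_
    · intro h0
      rw [h0] at h2
      simp at h2
    · intro h0
      rw [h0] at h1
      simp at h1
  have h1 : (∑' α : ZM m, (if α.det = 0 then 0 else h α)) =
      ∑' a : {α : ZM m // α.det ≠ 0}, h a.1 := by
    rw [show (∑' a : {α : ZM m // α.det ≠ 0}, h a.1) =
      ∑' α : ZM m, Set.indicator {α : ZM m | α.det ≠ 0} h α from
        tsum_subtype {α : ZM m | α.det ≠ 0} h]
    refine tsum_congr fun α => ?_
    by_cases h0 : α.det = 0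
    · rw [if_pos h0, Set.indicator_of_notMem (by simpa using h0)]
    · rw [if_neg h0, Set.indicator_of_mem (by simpa using h0)]
  have h2 : ∑' n : ℕ, ∑ ρ ∈ T (n + 1), ∑' γ : {γ : ZM m // IsUnit γ}, h (γ.1 * ρ) =
      ∑' i : (Σ n : ℕ, {ρ // ρ ∈ T (n + 1)} × {γ : ZM m // IsUnit γ}),
        h (i.2.2.1 * i.2.1.1) := by
    rw [ENNReal.tsum_sigma']
    refine tsum_congr fun n => ?_
    rw [ENNReal.tsum_prod']
    exact (Finset.tsum_subtype (T (n + 1))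
      (fun ρ => ∑' γ : {γ : ZM m // IsUnit γ}, h (γ.1 * ρ))).symm
  rw [h1, h2]
  refine ENNReal.tsum_le_tsum_comp_of_surjective
    (f := fun i : (Σ n : ℕ, {ρ // ρ ∈ T (n + 1)} × {γ : ZM m // IsUnit γ}) =>
      (⟨i.2.2.1 * i.2.1.1, hP i⟩ : {α : ZM m // α.det ≠ 0})) ?_
    (fun a : {α : ZM m // α.det ≠ 0} => h a.1)
  rintro ⟨α, hα⟩
  obtain ⟨k, hk⟩ : ∃ k, α.det.natAbs = k + 1 :=
    Nat.exists_eq_succ_of_ne_zero (Int.natAbs_ne_zero.2 hα)
  obtain ⟨ρ, ⟨hρ, γ, hγ, he⟩, -⟩ := hT.uniq (k + 1) (by omega) α hk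
  exact ⟨⟨k, ⟨ρ, hρ⟩, ⟨γ, hγ⟩⟩, Subtype.ext he.symm⟩

theorem meas_sz_kk {m : ℕ} (hszm : Measurable (fun z : V m => sz (mt z))) (r : ℝ) (α : Mat m)
    (hkkm : Measurable (fun p : V m × V m =>
      ((fun i j => kk r (mt p.1) α (mt p.2) i j) : V m))) (g : Mat m) :
    Measurable fun z : V m => sz (kk r (mt z) α g) := by
  have hp : Measurable (fun z : V m => (z, (fun i j => g i j : V m))) :=
    measurable_id.prodMk measurable_const
  have h1 := hkkm.comp hp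
  have h2 := hszm.comp h1
  have hg : mt (fun i j => g i j : V m) = g := rfl
  have h3 : ∀ M : Mat m, sz (mt (fun i j => M i j : V m)) = sz M := fun M => rfl
  have h4 : ((fun z : V m => sz (mt z)) ∘ ((fun p : V m × V m =>
      ((fun i j => kk r (mt p.1) α (mt p.2) i j) : V m)) ∘
        (fun z : V m => (z, (fun i j => g i j : V m))))) =
      fun z : V m => sz (kk r (mt z) α g) := by
    funext z
    simp only [Function.comp]
    rw [hg]
    exact h3 _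
  rw [← h4]
  exact h2

theorem meas_F {m : ℕ} (hszm : Measurable (fun z : V m => sz (mt z))) (r : ℝ) (α : Mat m)
    (hkkm : Measurable (fun p : V m × V m =>
      ((fun i j => kk r (mt p.1) α (mt p.2) i j) : V m))) (g : Mat m) (N : ℕ) :
    Measurable fun z : V m => ENNReal.ofReal ((1 + sz (kk r (mt z) α g)) ^ (-(N : ℝ))) := by
  have h1 := meas_sz_kk hszm r α hkkm g
  exact ENNReal.measurable_ofReal.comp ((h1.const_add 1).pow_const _)

/-- the summands -/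
noncomputable def FN {m : ℕ} (r : ℝ) (g : Mat m) (N : ℕ) (α : Mat m) (z : V m) : ENNReal :=
  ENNReal.ofReal ((1 + sz (kk r (mt z) α g)) ^ (-(N : ℝ)))

theorem FN_meas {m : ℕ} (hszm : Measurable (fun z : V m => sz (mt z))) (r : ℝ) (α : Mat m)
    (hkkm : Measurable (fun p : V m × V m =>
      ((fun i j => kk r (mt p.1) α (mt p.2) i j) : V m))) (g : Mat m) (N : ℕ) :
    Measurable (FN r g N α) := by
  have h1 := meas_F hszm r α hkkm g N
  exact h1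

theorem FN_of {m : ℕ} (r : ℝ) (g : Mat m) (N : ℕ) (α M : Mat m) :
    FN r g N α (fun i j => M i j) = ENNReal.ofReal ((1 + sz (kk r M α g)) ^ (-(N : ℝ))) := rfl

theorem FN_smul {m : ℕ} (hm : 1 ≤ m) (r : ℝ) (g : Mat m) (N : ℕ) (α : Mat m) (c : ℝ)
    (hc : 0 < c) (z : V m) : FN r g N α (c • z) = FN r g N α z := by
  have h1 : mt (c • z) = c • mt z := rfl
  unfold FN
  rw [h1, kk_smul hm r c hc]

theorem kk_coset {m : ℕ} (r : ℝ) (hr : 0 < r) (ρ g z : Mat m) (hρ : 0 < aN ρ)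
    (hg0 : aN g ≠ 0) (ha : (ρ * g).det ≠ 0) (hz0 : z.det ≠ 0) :
    kk r (ρ * g * z⁻¹ * 1) ρ g = ((r * (aN ρ)⁻¹)⁻¹ * (aN z)⁻¹) • z := by
  unfold kk
  rw [mul_one]
  have e1 : (ρ * g * z⁻¹)⁻¹ * ρ * g = z := by
    rw [Matrix.mul_inv_rev, Matrix.nonsing_inv_nonsing_inv _ (isUnit_iff_ne_zero.2 hz0),
      Matrix.mul_assoc, Matrix.mul_assoc, Matrix.nonsing_inv_mul _
        (isUnit_iff_ne_zero.2 ha), Matrix.mul_one]
  have hz1 := aN_ne hz0
  rw [e1, aN_mul, aN_mul, aN_inv]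
  congr 1
  field_simp

theorem FN_coset {m : ℕ} (r : ℝ) (hr : 0 < r) (ρ g z : Mat m) (N : ℕ) (hρ : 0 < aN ρ)
    (hg0 : aN g ≠ 0) (ha : (ρ * g).det ≠ 0) (hz0 : z.det ≠ 0) :
    FN r g N ρ (fun i j => (ρ * g * z⁻¹ * 1) i j) =
      ENNReal.ofReal ((1 + sz (((r * (aN ρ)⁻¹)⁻¹ * (aN z)⁻¹) • z)) ^ (-(N : ℝ))) := by
  rw [FN_of, kk_coset r hr ρ g z hρ hg0 ha hz0]

theorem FN_unit {m : ℕ} (r : ℝ) (g : Mat m) (N : ℕ) (u ρ : Mat m) (hu : aN u = 1)
    (hd : u.det ≠ 0) (z : V m) :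
    FN r g N (u * ρ) z = FN r g N ρ (fun i j => (u⁻¹ * mt z) i j) := by
  have hkk : kk r (u⁻¹ * mt z) ρ g = kk r (mt z) (u * ρ) g := by
    unfold kk
    rw [aN_mul, aN_inv, hu, inv_one, one_mul, Matrix.mul_inv_rev,
      Matrix.nonsing_inv_nonsing_inv _ (isUnit_iff_ne_zero.2 hd), ← Matrix.mul_assoc]
  have h1 := FN_of r g N ρ (u⁻¹ * mt z)
  rw [hkk] at h1
  rw [h1]
  rfl

theorem cR_units {m : ℕ} (hone : cR (1 : ZM m) = 1)
    (hmul : ∀ a b : ZM m, cR (a * b) = cR a * cR b) (γ : ZM m) (hγ : IsUnit γ) :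
    cR γ⁻¹ = (cR γ)⁻¹ ∧ IsUnit γ⁻¹ ∧ γ⁻¹⁻¹ = γ := by
  have hd : IsUnit γ.det := (Matrix.isUnit_iff_isUnit_det γ).1 hγ
  refine ⟨?_, ?_, Matrix.nonsing_inv_nonsing_inv _ hd⟩
  · symm
    refine Matrix.inv_eq_right_inv ?_
    rw [← hmul γ γ⁻¹, Matrix.mul_nonsing_inv _ hd, hone]
  · rw [Matrix.isUnit_iff_isUnit_det]
    exact Matrix.isUnit_nonsing_inv_det _ hd

/-- sums over the units -/
theorem sum_units {m : ℕ} (hone : cR (1 : ZM m) = 1)
    (hmul : ∀ a b : ZM m, cR (a * b) = cR a * cR b)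
    (hdet : ∀ a : ZM m, |(cR a).det| = (a.det.natAbs : ℝ))
    (hunit : ∀ γ : ZM m, IsUnit γ ↔ γ.det.natAbs = 1) (r : ℝ) (g : Mat m) (N : ℕ)
    (ρ : ZM m) (z : V m) :
    ∑' γ : {γ : ZM m // IsUnit γ}, FN r g N (cR (γ.1 * ρ)) z ≤
      ∑' γ : {γ : ZM m // IsUnit γ}, FN r g N (cR ρ) (fun i j => (cR γ.1 * mt z) i j) := by
  have hc := cR_units hone hmul
  have h1 : ∀ γ : {γ : ZM m // IsUnit γ}, FN r g N (cR (γ.1 * ρ)) z =
      FN r g N (cR ρ)
        (fun i j => (cR ((⟨γ.1⁻¹, (hc γ.1 γ.2).2.1⟩ : {γ : ZM m // IsUnit γ}).1) *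
        mt z) i j) := by
    rintro ⟨γ, hγ⟩
    have hγ1 : γ.det.natAbs = 1 := (hunit γ).1 hγ
    have haγ : aN (cR γ) = 1 := by
      unfold aN
      rw [hdet γ, hγ1, Nat.cast_one, Real.one_rpow]
    have hγr : (cR γ).det ≠ 0 := by
      intro h0
      have h1 := hdet γ
      rw [h0, hγ1, abs_zero] at h1
      norm_num at h1
    change FN r g N (cR (γ * ρ)) z = FN r g N (cR ρ) (fun i j => (cR γ⁻¹ * mt z) i j)
    rw [hmul, (hc γ hγ).1]
    exact FN_unit r g N (cR γ) (cR ρ) haγ hγr z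
  rw [tsum_congr h1]
  refine ENNReal.tsum_comp_le_tsum_of_injective
    (f := fun γ : {γ : ZM m // IsUnit γ} =>
      (⟨γ.1⁻¹, (hc γ.1 γ.2).2.1⟩ : {γ : ZM m // IsUnit γ})) ?_
    (fun γ : {γ : ZM m // IsUnit γ} => FN r g N (cR ρ) (fun i j => (cR γ.1 * mt z) i j))
  intro γ γ' h
  have h2 : γ.1⁻¹ = γ'.1⁻¹ := congrArg Subtype.val h
  refine Subtype.ext ?_
  rw [← (hc γ.1 γ.2).2.2, ← (hc γ'.1 γ'.2).2.2, h2]

theorem pf_TNL (hSHI : T_SHI) (hJSH : T_JSH) (hUNZ : T_UNZ) (hALZ : T_ALZ) (hTNZ : T_TNZ)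
    (hEXT : Pool.Agent.H27.L1.H34.GZ.T_EXT) (hMSR : T_MSR) : T_TNL := by
  classical
  intro m hm K0
  have hm0 : (1 : ℝ) ≤ m := by exact_mod_cast hm
  obtain ⟨K, hK⟩ : ∃ K : ℝ, K = max K0 (max ((m : ℝ) ^ 2) (m * (m + 2) + 1)) := ⟨_, rfl⟩
  have hKa : K0 ≤ K := by
    rw [hK]
    exact le_max_left _ _
  have hKb : (m : ℝ) ^ 2 ≤ K := by
    rw [hK]
    exact (le_max_left _ _).trans (le_max_right _ _)
  have hKc : (m : ℝ) * (m + 2) + 1 ≤ K := by
    rw [hK]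
    exact (le_max_right _ _).trans (le_max_right _ _)
  obtain ⟨N, C1, hC1, hJ⟩ := hJSH m hm K hKb
  obtain ⟨T, hT⟩ := hEXT m hm
  obtain ⟨C2, hC2, hcard⟩ := hTNZ m hm
  obtain ⟨⟨⟨hone, hmul⟩, hdet⟩, -, -, -, hunit, -⟩ := hALZ m 2 hm (by norm_num)
  obtain ⟨-, -, -, hszm, -, hShm, hkkm, -⟩ := hMSR.1 m
  have hS : Summable fun n : ℕ => 1 / ((n : ℝ) + 1) ^ 2 := by
    have h1 := (summable_nat_add_iff 1).2 (Real.summable_one_div_nat_pow.2 (by norm_num : 1 < 2))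
    refine h1.congr fun n => ?_
    push_cast
    rfl
  obtain ⟨S, hSd⟩ : ∃ S : ℝ, S = ∑' n : ℕ, 1 / ((n : ℝ) + 1) ^ 2 := ⟨_, rfl⟩
  have hS0 : 0 ≤ S := by
    rw [hSd]
    exact tsum_nonneg fun n => by positivity
  refine ⟨K, N, C1 * C2 * (S + 1), hKa, by positivity, ?_⟩
  intro D hD r hr g hg
  have hg0 := aN_ne hg
  have hFm : ∀ α : ZM m, Measurable (FN r g N (cR α)) := fun α =>
    FN_meas hszm r (cR α) (hkkm r (cR α)) g N
  -- one double coset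
  have hcos : ∀ ρ : ZM m, ρ.det ≠ 0 →
      ∫⁻ z in Shell m, FN r g N (cR ρ) z ∂(Pool.Agent.H27.L1.H34.GM.hm m) ≤
      ENNReal.ofReal (C1 * (r * (aN (cR ρ))⁻¹) ^ K) := by
    intro ρ hρ
    have hρr : (cR ρ).det ≠ 0 := by
      rw [(hdet ρ).1]
      exact_mod_cast hρ
    have ha : (cR ρ * g).det ≠ 0 := by
      rw [Matrix.det_mul]
      exact mul_ne_zero hρr hg
    have haρ : 0 < aN (cR ρ) := by
      have h1 := aN_ne hρr
      have h2 : 0 ≤ aN (cR ρ) := by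
        unfold aN
        positivity
      exact lt_of_le_of_ne h2 h1.symm
    have h1 := (hSHI m hm (FN r g N (cR ρ)) (hFm ρ)
      (fun c hc z => FN_smul hm r g N (cR ρ) c hc z) (cR ρ * g) 1 ha (by simp)).2
    rw [← h1]
    refine le_trans (le_of_eq ?_) (hJ (r * (aN (cR ρ))⁻¹) (by positivity))
    refine setLIntegral_congr_fun hShm fun z hz => ?_
    have hz0 : (mt z).det ≠ 0 := det_ne hm hz.1
    exact FN_coset r hr (cR ρ) g (mt z) N haρ hg0 ha hz0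
  -- the sizes
  have haT : ∀ n : ℕ, ∀ ρ ∈ T (n + 1), ρ.det ≠ 0 ∧
      aN (cR ρ) = ((n : ℝ) + 1) ^ (1 / (m : ℝ)) := by
    intro n ρ hρ
    have h1 := hT.mem (n + 1) (by omega) ρ hρ
    refine ⟨?_, ?_⟩
    · intro h0
      rw [h0] at h1
      simp at h1
    · unfold aN
      rw [(hdet ρ).2, h1]
      push_cast
      rfl
  have hterm : ∀ n : ℕ, ∑ ρ ∈ T (n + 1), ENNReal.ofReal (C1 * (r * (aN (cR ρ))⁻¹) ^ K) ≤
      ENNReal.ofReal (C1 * C2 * r ^ K * (1 / ((n : ℝ) + 1) ^ 2)) := by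
    intro n
    have hn : (0 : ℝ) < (n : ℝ) + 1 := by positivity
    have hn1 : (1 : ℝ) ≤ (n : ℝ) + 1 := by
      have : (0 : ℝ) ≤ n := Nat.cast_nonneg n
      linarith
    have h1 : ∀ ρ ∈ T (n + 1), ENNReal.ofReal (C1 * (r * (aN (cR ρ))⁻¹) ^ K) =
        ENNReal.ofReal (C1 * (r ^ K * ((n : ℝ) + 1) ^ (-(K / m)))) := by
      intro ρ hρ
      rw [(haT n ρ hρ).2, Real.mul_rpow hr.le (by positivity), ← Real.rpow_neg hn.le,
        ← Real.rpow_mul hn.le]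
      congr 4
      ring
    rw [Finset.sum_congr rfl h1, Finset.sum_const, nsmul_eq_mul,
      ← ENNReal.ofReal_natCast, ← ENNReal.ofReal_mul (Nat.cast_nonneg _)]
    refine ENNReal.ofReal_le_ofReal ?_
    have h2 := hcard T hT (n + 1) (by omega)
    have h3 : ((n : ℝ) + 1) ^ m * ((n : ℝ) + 1) ^ (-(K / m)) ≤ 1 / ((n : ℝ) + 1) ^ 2 := by
      have h4 : (m : ℝ) + -(K / m) ≤ -2 := by
        have h5 : (m : ℝ) + 2 ≤ K / m := by
          rw [le_div_iff₀ (by linarith)]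
          nlinarith
        linarith
      rw [← Real.rpow_natCast ((n : ℝ) + 1) m, ← Real.rpow_add hn, one_div,
        ← Real.rpow_natCast ((n : ℝ) + 1) 2, ← Real.rpow_neg hn.le]
      refine Real.rpow_le_rpow_of_exponent_le hn1 ?_
      push_cast
      exact h4
    have hrK : 0 < r ^ K := Real.rpow_pos_of_pos hr _
    have hnK : 0 < ((n : ℝ) + 1) ^ (-(K / m)) := Real.rpow_pos_of_pos hn _
    push_cast at h2
    calc ((T (n + 1)).card : ℝ) * (C1 * (r ^ K * ((n : ℝ) + 1) ^ (-(K / m))))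
        ≤ (C2 * ((n : ℝ) + 1) ^ m) * (C1 * (r ^ K * ((n : ℝ) + 1) ^ (-(K / m)))) :=
          mul_le_mul_of_nonneg_right h2 (by positivity)
      _ = C1 * C2 * r ^ K * (((n : ℝ) + 1) ^ m * ((n : ℝ) + 1) ^ (-(K / m))) := by ring
      _ ≤ C1 * C2 * r ^ K * (1 / ((n : ℝ) + 1) ^ 2) :=
          mul_le_mul_of_nonneg_left h3 (by positivity)
  -- everything
  have hcount : Countable {γ : ZM m // IsUnit γ} := by
    have : Countable (ZM m) := by
      change Countable (Fin m → Fin m → ℤ)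
      infer_instance
    infer_instance
  have hmeasU : ∀ ρ : ZM m, Measurable fun z : V m =>
      ∑' γ : {γ : ZM m // IsUnit γ}, FN r g N (cR (γ.1 * ρ)) z := fun ρ =>
    Measurable.tsum fun γ => hFm _
  calc ∫⁻ z in D, ∑' α : ZM m, (if α.det = 0 then 0 else ENNReal.ofReal
        ((1 + sz (kk r (mt z) (cR α) g)) ^ (-(N : ℝ)))) ∂(Pool.Agent.H27.L1.H34.GM.hm m)
      ≤ ∫⁻ z in D, ∑' n : ℕ, ∑ ρ ∈ T (n + 1),
          ∑' γ : {γ : ZM m // IsUnit γ}, FN r g N (cR (γ.1 * ρ)) z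
            ∂(Pool.Agent.H27.L1.H34.GM.hm m) := by
        refine lintegral_mono fun z => ?_
        exact sum_reps hT hunit (fun α => FN r g N (cR α) z)
    _ = ∑' n : ℕ, ∑ ρ ∈ T (n + 1), ∫⁻ z in D,
          ∑' γ : {γ : ZM m // IsUnit γ}, FN r g N (cR (γ.1 * ρ)) z
            ∂(Pool.Agent.H27.L1.H34.GM.hm m) := by
        rw [lintegral_tsum fun n =>
          (Finset.measurable_sum _ fun ρ _ => hmeasU ρ).aemeasurable]
        refine tsum_congr fun n => ?_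
        rw [lintegral_finsetSum _ fun ρ _ => hmeasU ρ]
    _ ≤ ∑' n : ℕ, ∑ ρ ∈ T (n + 1), ENNReal.ofReal (C1 * (r * (aN (cR ρ))⁻¹) ^ K) := by
        refine ENNReal.tsum_le_tsum fun n => Finset.sum_le_sum fun ρ hρ => ?_
        refine le_trans (lintegral_mono fun z => sum_units hone (fun a b => (hmul a b).1)
          (fun a => (hdet a).2) hunit r g N ρ z) ?_
        rw [← (hUNZ m hm D hD).1 (FN r g N (cR ρ)) (hFm ρ)]
        exact hcos ρ (haT n ρ hρ).1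
    _ ≤ ∑' n : ℕ, ENNReal.ofReal (C1 * C2 * r ^ K * (1 / ((n : ℝ) + 1) ^ 2)) :=
        ENNReal.tsum_le_tsum hterm
    _ = ENNReal.ofReal (∑' n : ℕ, C1 * C2 * r ^ K * (1 / ((n : ℝ) + 1) ^ 2)) := by
        rw [ENNReal.ofReal_tsum_of_nonneg (fun n => by positivity) (hS.mul_left _)]
    _ ≤ ENNReal.ofReal (C1 * C2 * (S + 1) * r ^ K) := by
        refine ENNReal.ofReal_le_ofReal ?_
        rw [tsum_mul_left, ← hSd]
        have h1 : 0 < C1 * C2 * r ^ K := by positivity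
        nlinarith

end Pool.Agent.H27.L1.H89.GZ
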